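import Pool.Agent.H575.ES.Stm
import Pool.Graph.R_pool_sql_team_seeded_3997aac3.Q238.ESN.QR
import Pool.Graph.R_pool_sql_team_seeded_3997aac3.Q190.ESN.Base

/-!
# Project ES (helper575), job LCG: local conditions over a number field from approximate points

Adapted from `Pool/Graph/R_pool_sql_team_seeded_3997aac3/Q193/ESG/LCF.lean`.
-/

set_option autoImplicit false
set_option linter.all false

namespace Pool.Agent.H685.ES

open Polynomial NumberField IsDedekindDomain Finset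
open Pool.Agent.Q51.EL (Abv Par)
open Pool.Agent.Q161.ESN
open Pool.Agent.Q193.ESG (U1 exp_of_ne val_int val_Δ dif_val fac blk_three sq3 mvp exists_N disc_ne)
open Pool.Agent.Q224.ESF (triU evnU sq1U sq2U prod_of_U1)
open Pool.Agent.Q237.ESM (bl val_bl abv_bl mem_bl)
open Pool.Agent.H575.ES
open scoped Classical

section main

variable {F L K : Type} [Field F] [NumberField F] [Field L] [NumberField L] [Algebra F L]
  [Field K] [NumberField K] [Algebra F K]

theorem three [IsGalois ℚ K] {a b : F} {th : L} (hirr : Irreducible (X ^ 3 + C a * X + C b : F[X]))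
    (hroot : th ^ 3 + algebraMap F L a * th + algebraMap F L b = 0) (hdeg : Module.finrank F L = 3)
    (ι : L →ₐ[F] K) : ∃ ι2 ι3 : L →ₐ[F] K, (∀ ι' : L →ₐ[F] K, ι' = ι ∨ ι' = ι2 ∨ ι' = ι3) ∧
      ι ≠ ι2 ∧ ι ≠ ι3 ∧ ι2 ≠ ι3 ∧ ι th ≠ ι2 th ∧ ι th ≠ ι3 th ∧ ι2 th ≠ ι3 th := by
  obtain ⟨j2, j3, hb, h12, h13, h23, t12, t13, t23⟩ := blk_three hirr hroot hdeg (ι : L →+* K)
  have hc : (ι : L →+* K).comp (algebraMap F L) = algebraMap F K := RingHom.ext fun r => ι.commutes r
  have c2 : j2.comp (algebraMap F L) = algebraMap F K :=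
    ((hb j2).2 (Or.inr (Or.inl rfl))).trans hc
  have c3 : j3.comp (algebraMap F L) = algebraMap F K :=
    ((hb j3).2 (Or.inr (Or.inr rfl))).trans hc
  let ι2 : L →ₐ[F] K := ⟨j2, fun r => congrArg (fun g : F →+* K => g r) c2⟩
  let ι3 : L →ₐ[F] K := ⟨j3, fun r => congrArg (fun g : F →+* K => g r) c3⟩
  refine ⟨ι2, ι3, fun ι' => ?_, ?_, ?_, ?_, t12, t13, t23⟩
  · have hc' : (ι' : L →+* K).comp (algebraMap F L) = (ι : L →+* K).comp (algebraMap F L) := by
      rw [hc]; exact RingHom.ext fun r => ι'.commutes r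
    rcases (hb ι').1 hc' with h | h | h
    · exact Or.inl (AlgHom.ext fun z => congrArg (fun g : L →+* K => g z) h)
    · exact Or.inr (Or.inl (AlgHom.ext fun z => congrArg (fun g : L →+* K => g z) h))
    · exact Or.inr (Or.inr (AlgHom.ext fun z => congrArg (fun g : L →+* K => g z) h))
  · intro h
    exact t12 (congrArg (fun g : L →ₐ[F] K => g th) h)
  · intro h
    exact t13 (congrArg (fun g : L →ₐ[F] K => g th) h)
  · intro h
    exact t23 (congrArg (fun g : L →ₐ[F] K => g th) h)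

/-- the local situation at one embedding -/
theorem loc [IsGalois ℚ K] {a b : 𝓞 F} {th : 𝓞 L}
    (hirr : Irreducible (X ^ 3 + C (a : F) * X + C (b : F) : F[X]))
    (hroot : (th : L) ^ 3 + algebraMap F L a * (th : L) + algebraMap F L b = 0)
    (hdeg : Module.finrank F L = 3) {N : ℕ} (hN : (4 * a ^ 3 + 27 * b ^ 2 : 𝓞 F) ∣ (N : 𝓞 F))
    {w : HeightOneSpectrum (𝓞 K)} {l : ℕ} (hl : l.Prime) (hw : Abv w l) (hlN : ¬ l ∣ N)
    {D x y : F}
    (hU : U1 (w.valuation K) (algebraMap F K ((x ^ 3 + a * D ^ 2 * x + b * D ^ 3) / y ^ 2)))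
    (ι : L →ₐ[F] K) :
    ∃ ι2 ι3 : L →ₐ[F] K, (∀ ι' : L →ₐ[F] K, ι' = ι ∨ ι' = ι2 ∨ ι' = ι3) ∧ ι ≠ ι2 ∧ ι ≠ ι3 ∧ ι2 ≠ ι3 ∧
      w.valuation K (ι (th : L)) ≤ 1 ∧ w.valuation K (ι2 (th : L)) ≤ 1 ∧ w.valuation K (ι3 (th : L)) ≤ 1 ∧
      w.valuation K (ι (th : L) - ι2 (th : L)) = 1 ∧ w.valuation K (ι (th : L) - ι3 (th : L)) = 1 ∧
      w.valuation K (ι2 (th : L) - ι3 (th : L)) = 1 ∧
      U1 (w.valuation K) ((algebraMap F K x - algebraMap F K D * ι (th : L)) *
        (algebraMap F K x - algebraMap F K D * ι2 (th : L)) *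
        (algebraMap F K x - algebraMap F K D * ι3 (th : L)) / algebraMap F K y ^ 2) := by
  obtain ⟨ι2, ι3, hb, h12, h13, h23, t12, t13, t23⟩ := three hirr hroot hdeg ι
  have hr : ∀ ι' : L →ₐ[F] K,
      (ι' (th : L)) ^ 3 + algebraMap F K a * ι' (th : L) + algebraMap F K b = 0 := by
    intro ι'
    have h1 := congrArg ι' hroot
    rw [map_add, map_add, map_mul, map_pow, map_zero, ι'.commutes, ι'.commutes] at h1
    exact h1
  have r1 := hr ι
  have r2 := hr ι2
  have r3 := hr ι3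
  have v1 : w.valuation K (ι (th : L)) ≤ 1 := val_int w (ι : L →+* K) th
  have v2 : w.valuation K (ι2 (th : L)) ≤ 1 := val_int w (ι2 : L →+* K) th
  have v3 : w.valuation K (ι3 (th : L)) ≤ 1 := val_int w (ι3 : L →+* K) th
  have hΔ : w.valuation K (4 * (algebraMap F K a) ^ 3 + 27 * (algebraMap F K b) ^ 2) = 1 := by
    have h1 := val_Δ hN hl hw hlN (algebraMap F K)
    have h2 : algebraMap F K ((4 * a ^ 3 + 27 * b ^ 2 : 𝓞 F) : F) =
        4 * (algebraMap F K a) ^ 3 + 27 * (algebraMap F K b) ^ 2 := by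
      have h3 : ((4 * a ^ 3 + 27 * b ^ 2 : 𝓞 F) : F) = 4 * (a : F) ^ 3 + 27 * (b : F) ^ 2 := by
        push_cast
        rfl
      rw [h3]
      simp only [map_add, map_mul, map_pow, map_ofNat]
    rwa [h2] at h1
  obtain ⟨d12, d13, d23⟩ := dif_val r1 r2 r3 t12 t13 t23 hΔ v1 v2 v3
  refine ⟨ι2, ι3, hb, h12, h13, h23, v1, v2, v3, d12, d13, d23, ?_⟩
  rw [← fac r1 r2 r3 t12 t13 t23]
  rw [map_div₀, map_add, map_add, map_mul, map_mul, map_mul, map_pow, map_pow, map_pow, map_pow] at hU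
  exact hU

/-- the type -/
noncomputable def Ee (w : HeightOneSpectrum (𝓞 K)) (th : 𝓞 L) (D x : F) (ι : L →ₐ[F] K) : ZMod 2 :=
  if w.valuation K (algebraMap F K x - algebraMap F K D * ι (th : L)) = WithZero.exp (-1 : ℤ)
    then 1 else 0

/-- the square roots -/
noncomputable def rr (w : HeightOneSpectrum (𝓞 K)) (th : 𝓞 L) (D x y : F)
    (e : (L →ₐ[F] K) → ZMod 2) (ι : L →ₐ[F] K) : K :=
  if WithZero.exp (-1 : ℤ) < w.valuation K (algebraMap F K x) then
    algebraMap F K y / algebraMap F K x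
  else if e ι = 0 then algebraMap F K y / algebraMap F K D
  else algebraMap F K D * ∏ ι' ∈ univ.filter (fun ι' : L →ₐ[F] K => e ι' = 0),
    (ι' (th : L) - ι (th : L))

theorem cp_inj (g : K ≃ₐ[F] K) {ι ι' : L →ₐ[F] K} (h : cp g ι = cp g ι') : ι = ι' := by
  ext z
  apply g.injective
  exact congrArg (fun f : L →ₐ[F] K => f z) h

theorem cp_symm (g : K ≃ₐ[F] K) (ι : L →ₐ[F] K) : cp g (cp g.symm ι) = ι := by
  ext z
  show g (g.symm (ι z)) = ι z
  exact g.apply_symm_apply _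

theorem rr_eqv {w : HeightOneSpectrum (𝓞 K)} (g : K ≃ₐ[F] K)
    (th : 𝓞 L) (D x y : F) (e : (L →ₐ[F] K) → ZMod 2) (he : ∀ ι, e (cp g ι) = e ι)
    (ι : L →ₐ[F] K) : g (rr w th D x y e ι) = rr w th D x y e (cp g ι) := by
  unfold rr
  by_cases h1 : WithZero.exp (-1 : ℤ) < w.valuation K (algebraMap F K x)
  · rw [if_pos h1, if_pos h1, map_div₀, g.commutes, g.commutes]
  · rw [if_neg h1, if_neg h1, he ι]
    by_cases h2 : e ι = 0
    · rw [if_pos h2, if_pos h2, map_div₀, g.commutes, g.commutes]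
    · rw [if_neg h2, if_neg h2, map_mul, g.commutes, map_prod]
      congr 1
      refine prod_bij (fun ι' _ => cp g ι') ?_ ?_ ?_ ?_
      · intro ι' h
        refine mem_filter.2 ⟨mem_univ _, ?_⟩
        rw [he]
        exact (mem_filter.1 h).2
      · intro ι1 _ ι2 _ h
        exact cp_inj g h
      · intro ι' h
        refine ⟨cp g.symm ι', ?_, cp_symm g ι'⟩
        refine mem_filter.2 ⟨mem_univ _, ?_⟩
        rw [← he, cp_symm]
        exact (mem_filter.1 h).2
      · intro ι' _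
        rw [map_sub]
        rfl

theorem uu_zero {th : 𝓞 L} {e : (L →ₐ[F] K) → ZMod 2} {ι : L →ₐ[F] K}
    (S : Finset (L →ₐ[F] K)) (hS : ∀ ι', ι' ∈ S ↔ e ι' = 1) (h : e ι = 0) :
    uu th e ι = ∏ ι' ∈ S, (ι (th : L) - ι' (th : L)) := by
  unfold uu
  rw [if_pos h]
  apply prod_congr _ fun _ _ => rfl
  ext ι'
  rw [mem_filter, hS]
  simp

theorem uu_one {th : 𝓞 L} {e : (L →ₐ[F] K) → ZMod 2} {ι : L →ₐ[F] K}
    (S : Finset (L →ₐ[F] K)) (hS : ∀ ι', ι' ∈ S ↔ e ι' = 0) (h : ¬ e ι = 0) :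
    uu th e ι = - ∏ ι' ∈ S, (ι (th : L) - ι' (th : L)) := by
  unfold uu
  rw [if_neg h]
  congr 1
  apply prod_congr _ fun _ _ => rfl
  ext ι'
  rw [mem_filter, hS]
  simp

theorem rr_one {w : HeightOneSpectrum (𝓞 K)} {th : 𝓞 L} {D x y : F} {e : (L →ₐ[F] K) → ZMod 2}
    {ι : L →ₐ[F] K} (S : Finset (L →ₐ[F] K)) (hS : ∀ ι', ι' ∈ S ↔ e ι' = 0)
    (h1 : ¬ WithZero.exp (-1 : ℤ) < w.valuation K (algebraMap F K x)) (h : ¬ e ι = 0) :
    rr w th D x y e ι = algebraMap F K D * ∏ ι' ∈ S, (ι' (th : L) - ι (th : L)) := by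
  unfold rr
  rw [if_neg h1, if_neg h]
  congr 1
  apply prod_congr _ fun _ _ => rfl
  ext ι'
  rw [mem_filter, hS]
  simp

theorem sum_three {ι ι2 ι3 : L →ₐ[F] K} (hb : ∀ ι' : L →ₐ[F] K, ι' = ι ∨ ι' = ι2 ∨ ι' = ι3)
    (h12 : ι ≠ ι2) (h13 : ι ≠ ι3) (h23 : ι2 ≠ ι3) (e : (L →ₐ[F] K) → ZMod 2) :
    ∑ ι', e ι' = e ι + e ι2 + e ι3 := by
  have h : (univ : Finset (L →ₐ[F] K)) = {ι, ι2, ι3} := by
    ext ι'
    simp only [mem_univ, mem_insert, mem_singleton, true_iff]
    exact hb ι'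
  rw [h, sum_insert, sum_insert, sum_singleton, add_assoc]
  · rw [mem_singleton]
    exact h23
  · rw [mem_insert, mem_singleton]
    rintro (h0 | h0)
    · exact h12 h0
    · exact h13 h0

/-- the ramified case at one embedding -/
theorem loc_odd [IsGalois ℚ K] {a b : 𝓞 F} {th : 𝓞 L}
    (hirr : Irreducible (X ^ 3 + C (a : F) * X + C (b : F) : F[X]))
    (hroot : (th : L) ^ 3 + algebraMap F L a * (th : L) + algebraMap F L b = 0)
    (hdeg : Module.finrank F L = 3) {N : ℕ} (hN : (4 * a ^ 3 + 27 * b ^ 2 : 𝓞 F) ∣ (N : 𝓞 F))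
    {w : HeightOneSpectrum (𝓞 K)} {l : ℕ} (hl : l.Prime) (hw : Abv w l) (hlN : ¬ l ∣ N)
    {D x y : F} (hy0 : y ≠ 0)
    (hU : U1 (w.valuation K) (algebraMap F K ((x ^ 3 + a * D ^ 2 * x + b * D ^ 3) / y ^ 2)))
    (hvD : w.valuation K (algebraMap F K D) = WithZero.exp (-1 : ℤ)) (ι : L →ₐ[F] K) :
    (∑ ι' : L →ₐ[F] K, Ee w th D x ι' = 0) ∧
    (Ee w th D x ι = 0 → Par w (algebraMap F K x - algebraMap F K D * ι (th : L)) 0) ∧
    (Ee w th D x ι = 1 → Par w (algebraMap F K x - algebraMap F K D * ι (th : L)) 1) ∧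
    U1 (w.valuation K) ((algebraMap F K x - algebraMap F K D * ι (th : L)) *
      (if Ee w th D x ι = 1 then algebraMap F K D else 1) *
      uu th (Ee w th D x) ι / (rr w th D x y (Ee w th D x) ι) ^ 2) := by
  obtain ⟨ι2, ι3, hb, h12, h13, h23, v1, v2, v3, d12, d13, d23, hE⟩ :=
    loc hirr hroot hdeg hN hl hw hlN hU ι
  have hy : algebraMap F K y ≠ 0 := by
    rw [Ne, map_eq_zero]
    exact hy0
  have pos : ∀ ι' : L →ₐ[F] K, w.valuation K (algebraMap F K x - algebraMap F K D * ι' (th : L)) =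
      WithZero.exp (-1 : ℤ) → Ee w th D x ι' = 1 := by
    intro ι' h
    unfold Ee
    rw [if_pos h]
  have neg : ∀ ι' : L →ₐ[F] K, w.valuation K (algebraMap F K x - algebraMap F K D * ι' (th : L)) ≠
      WithZero.exp (-1 : ℤ) → Ee w th D x ι' = 0 := by
    intro ι' h
    unfold Ee
    rw [if_neg h]
  have h10 : ¬ (1 : ZMod 2) = 0 := by decide
  have h01 : ¬ (0 : ZMod 2) = 1 := by decide
  have hp1 : w.valuation K (algebraMap F K x - algebraMap F K D * ι (th : L)) =
      WithZero.exp (-1 : ℤ) → Par w (algebraMap F K x - algebraMap F K D * ι (th : L)) 1 := by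
    intro h
    exact ⟨-1, by rw [h]; norm_num⟩
  rw [sum_three hb h12 h13 h23]
  rcases triU hvD v1 v2 v3 d12 d13 d23 hy hE with ⟨hx, g1, g2, g3, k, hk⟩ | ⟨hx, hc⟩
  · have E1 := neg ι (by rw [g1]; exact hx.ne')
    have E2 := neg ι2 (by rw [g2]; exact hx.ne')
    have E3 := neg ι3 (by rw [g3]; exact hx.ne')
    refine ⟨by rw [E1, E2, E3]; rfl, fun _ => ⟨k, by rw [g1, hk]⟩, fun h => absurd (E1.symm.trans h) h01, ?_⟩
    have hu : uu th (Ee w th D x) ι = 1 := by
      rw [uu_zero ∅ (fun ι' => ?_) E1, prod_empty]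
      constructor
      · intro h
        exact absurd h (notMem_empty _)
      · intro h2
        rcases hb ι' with rfl | rfl | rfl
        · exact absurd (E1.symm.trans h2) h01
        · exact absurd (E2.symm.trans h2) h01
        · exact absurd (E3.symm.trans h2) h01
    have hr : rr w th D x y (Ee w th D x) ι = algebraMap F K y / algebraMap F K x := by
      unfold rr
      rw [if_pos hx]
    rw [hu, hr, E1, if_neg h01, mul_one, mul_one]
    exact sq1U hvD v2 v3 hy hE hx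
  · have hx' : ¬ WithZero.exp (-1 : ℤ) < w.valuation K (algebraMap F K x) := not_lt.2 hx
    rcases hc with ⟨g1, g2, g3, k, hk⟩ | ⟨g1, g2, g3, k, hk⟩ | ⟨g1, g2, g3, k, hk⟩
    · have E1 := neg ι g1.ne
      have E2 := pos ι2 g2
      have E3 := pos ι3 g3
      refine ⟨by rw [E1, E2, E3]; decide, fun _ => ⟨k, by rw [hk]⟩, fun h => absurd (E1.symm.trans h) h01, ?_⟩
      have hu : uu th (Ee w th D x) ι =
          (ι (th : L) - ι2 (th : L)) * (ι (th : L) - ι3 (th : L)) := by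
        rw [uu_zero {ι2, ι3} (fun ι' => ?_) E1, prod_pair h23]
        rw [mem_insert, mem_singleton]
        constructor
        · rintro (rfl | rfl)
          · exact E2
          · exact E3
        · intro h2
          rcases hb ι' with rfl | rfl | rfl
          · exact absurd (E1.symm.trans h2) h01
          · exact Or.inl rfl
          · exact Or.inr rfl
      have hr : rr w th D x y (Ee w th D x) ι = algebraMap F K y / algebraMap F K D := by
        unfold rr
        rw [if_neg hx', if_pos E1]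
      rw [hu, hr, E1, if_neg h01, mul_one]
      exact sq2U hvD hy hE g1 g2 g3
    · have E1 := pos ι g1
      have E2 := neg ι2 g2.ne
      have E3 := pos ι3 g3
      have E1' : ¬ Ee w th D x ι = 0 := fun h => h10 (E1.symm.trans h)
      refine ⟨by rw [E1, E2, E3]; decide, fun h => absurd h E1', fun _ => hp1 g1, ?_⟩
      have hS : ∀ ι', ι' ∈ ({ι2} : Finset (L →ₐ[F] K)) ↔ Ee w th D x ι' = 0 := by
        intro ι'
        rw [mem_singleton]
        constructor
        · rintro rfl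
          exact E2
        · intro h2
          rcases hb ι' with rfl | rfl | rfl
          · exact absurd h2 E1'
          · rfl
          · exact absurd (E3.symm.trans h2) h10
      rw [uu_one {ι2} hS E1', rr_one {ι2} hS hx' E1', prod_singleton, prod_singleton, E1, if_pos rfl]
      exact sq3 hvD d12 g2
    · have E1 := pos ι g1
      have E2 := pos ι2 g2
      have E3 := neg ι3 g3.ne
      have E1' : ¬ Ee w th D x ι = 0 := fun h => h10 (E1.symm.trans h)
      refine ⟨by rw [E1, E2, E3]; decide, fun h => absurd h E1', fun _ => hp1 g1, ?_⟩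
      have hS : ∀ ι', ι' ∈ ({ι3} : Finset (L →ₐ[F] K)) ↔ Ee w th D x ι' = 0 := by
        intro ι'
        rw [mem_singleton]
        constructor
        · rintro rfl
          exact E3
        · intro h2
          rcases hb ι' with rfl | rfl | rfl
          · exact absurd h2 E1'
          · exact absurd (E2.symm.trans h2) h10
          · rfl
      rw [uu_one {ι3} hS E1', rr_one {ι3} hS hx' E1', prod_singleton, prod_singleton, E1, if_pos rfl]
      exact sq3 hvD d13 g3

theorem ov_bl (ι : L →ₐ[F] K) (w : HeightOneSpectrum (𝓞 K)) {l : ℕ} (hl : l.Prime) (hw : Abv w l) :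
    Ov (bl (ι : L →+* K) w hl hw) (bl (algebraMap F K) w hl hw) := by
  intro x
  rw [mem_bl, mem_bl]
  have h : RingOfIntegers.mapRingHom (ι : L →+* K) (iO F L x) =
      RingOfIntegers.mapRingHom (algebraMap F K) x := by
    apply RingOfIntegers.coe_injective
    exact ι.commutes (x : F)
  rw [h]

/-- the property of `η` -/
def Pe (w : HeightOneSpectrum (𝓞 K)) (th : 𝓞 L) (D x : F) (δ : L) (ι : L →ₐ[F] K) (η : L) : Prop :=
  η ≠ 0 ∧ U1 (w.valuation K)
    (ι δ * (algebraMap F K x - algebraMap F K D * ι (th : L)) / (ι η) ^ 2)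

/-- a chosen `η` -/
noncomputable def et (w : HeightOneSpectrum (𝓞 K)) (th : 𝓞 L) (D x : F) (δ : L) (ι : L →ₐ[F] K) : L :=
  Classical.epsilon (Pe w th D x δ ι)

theorem exists_eta {w : HeightOneSpectrum (𝓞 K)} {l : ℕ} (hl : l.Prime) (hw : Abv w l)
    (hsq : Squarefree (Ideal.span {(l : 𝓞 K)})) {th : 𝓞 L} {D x : F} {δ : L}
    (h : ∀ u : HeightOneSpectrum (𝓞 L), Ov u (bl (algebraMap F K) w hl hw) → ∃ η : L, η ≠ 0 ∧
      U1 (u.valuation L) (δ * (algebraMap F L x - algebraMap F L D * (th : L)) / η ^ 2))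
    (ι : L →ₐ[F] K) : Pe w th D x δ ι (et w th D x δ ι) := by
  refine Classical.epsilon_spec (p := Pe w th D x δ ι) ?_
  obtain ⟨η, hη, hU⟩ := h _ (ov_bl ι w hl hw)
  refine ⟨η, hη, ?_⟩
  unfold U1 at hU ⊢
  rw [← val_bl (ι : L →+* K) w hl hw hsq] at hU
  have e : (ι : L →+* K) (δ * (algebraMap F L x - algebraMap F L D * (th : L)) / η ^ 2 - 1) =
      ι δ * (algebraMap F K x - algebraMap F K D * ι (th : L)) / (ι η) ^ 2 - 1 := by
    show ι (δ * (algebraMap F L x - algebraMap F L D * (th : L)) / η ^ 2 - 1) = _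
    rw [map_sub, map_one, map_div₀, map_mul, map_sub, map_mul, map_pow, ι.commutes, ι.commutes]
  rwa [e] at hU

theorem pe_cp {w : HeightOneSpectrum (𝓞 K)} {φ : K ≃ₐ[F] K}
    (hm : ∀ y : K, w.valuation K (φ y) = w.valuation K y) (th : 𝓞 L) (D x : F) (δ : L)
    (ι : L →ₐ[F] K) : Pe w th D x δ (cp φ ι) = Pe w th D x δ ι := by
  funext η
  unfold Pe U1
  have e : cp φ ι δ * (algebraMap F K x - algebraMap F K D * cp φ ι (th : L)) / (cp φ ι η) ^ 2 - 1 =
      φ (ι δ * (algebraMap F K x - algebraMap F K D * ι (th : L)) / (ι η) ^ 2 - 1) := by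
    rw [map_sub, map_one, map_div₀, map_mul, map_sub, map_mul, map_pow, φ.commutes, φ.commutes]
    rfl
  rw [e, hm]

theorem et_cp {w : HeightOneSpectrum (𝓞 K)} {φ : K ≃ₐ[F] K}
    (hm : ∀ y : K, w.valuation K (φ y) = w.valuation K y) (th : 𝓞 L) (D x : F) (δ : L)
    (ι : L →ₐ[F] K) : et w th D x δ (cp φ ι) = et w th D x δ ι := by
  unfold et
  rw [pe_cp hm]

/-- parity is transferred -/
theorem par_tr {w : HeightOneSpectrum (𝓞 K)} {A B C : K} (hC : C ≠ 0) {e : ℤ}
    (hU : U1 (w.valuation K) (A * B / C ^ 2)) (hB : Par w B e) : Par w A (-e) := by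
  obtain ⟨k, hk⟩ := hB
  obtain ⟨h0, h1⟩ := prod_of_U1 hC hU
  obtain ⟨n, hn⟩ := exp_of_ne (v := w.valuation K) hC
  have hA0 : A ≠ 0 := left_ne_zero_of_mul h0
  obtain ⟨m, hm⟩ := exp_of_ne (v := w.valuation K) hA0
  rw [map_mul, hk, hn, hm, ← WithZero.exp_add, ← WithZero.exp_nsmul] at h1
  have h2 := WithZero.exp_injective h1
  refine ⟨n - k, ?_⟩
  rw [hm]
  congr 1
  simp only [nsmul_eq_mul, Nat.cast_ofNat] at h2
  linarith

theorem par_neg {w : HeightOneSpectrum (𝓞 K)} {A : K} (h : Par w A (-1)) : Par w A 1 := by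
  obtain ⟨k, hk⟩ := h
  refine ⟨k - 1, ?_⟩
  rw [hk]
  congr 1
  ring

theorem par_neg0 {w : HeightOneSpectrum (𝓞 K)} {A : K} (h : Par w A (-0)) : Par w A 0 := by
  rwa [neg_zero] at h

/-- the local data at `w` -/
theorem data {w : HeightOneSpectrum (𝓞 K)} {l : ℕ} (hl : l.Prime) (hl2 : l ≠ 2) (hw : Abv w l)
    (hsq : Squarefree (Ideal.span {(l : 𝓞 K)})) {a b : 𝓞 F} {th : 𝓞 L} {D : 𝓞 F} {δ : L}
    (h : ∀ v : HeightOneSpectrum (𝓞 F), (2 : 𝓞 F) ∉ v.asIdeal →
      App (a : F) (b : F) (th : L) (D : F) δ v) :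
    ∃ x y : F, y ≠ 0 ∧
      U1 (w.valuation K) (algebraMap F K ((x ^ 3 + a * (D : F) ^ 2 * x + b * (D : F) ^ 3) / y ^ 2)) ∧
      ∀ ι : L →ₐ[F] K, Pe w th (D : F) x δ ι (et w th (D : F) x δ ι) := by
  have h2 : (2 : 𝓞 F) ∉ (bl (algebraMap F K) w hl hw).asIdeal := by
    intro h2
    have h1 : (l : 𝓞 F) ∈ (bl (algebraMap F K) w hl hw).asIdeal := abv_bl _ _ hl hw
    have hodd := hl.eq_two_or_odd'
    rcases hodd with h0 | ⟨n, hn⟩
    · exact hl2 h0
    · have h3 : (1 : 𝓞 F) ∈ (bl (algebraMap F K) w hl hw).asIdeal := by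
        have e : (1 : 𝓞 F) = (l : 𝓞 F) - n * 2 := by
          rw [hn]
          push_cast
          ring
        rw [e]
        exact Ideal.sub_mem _ h1 (Ideal.mul_mem_left _ _ h2)
      exact (bl (algebraMap F K) w hl hw).isPrime.ne_top ((Ideal.eq_top_iff_one _).2 h3)
  obtain ⟨x, y, hy, hU, hη⟩ := h _ h2
  refine ⟨x, y, hy, ?_, exists_eta hl hw hsq hη⟩
  unfold U1 at hU ⊢
  rw [← val_bl (algebraMap F K) w hl hw hsq, map_sub, map_one] at hU
  exact hU

theorem lcg : S_LCG := by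
  intro F L K _ _ _ _ _ _ _ _ _ a b th hirr hroot hdeg _
  obtain ⟨B0, hB0, hB⟩ := Pool.Agent.Q224.ESM.frx K
  have hΔ : (4 * a ^ 3 + 27 * b ^ 2 : 𝓞 F) ≠ 0 := by
    intro h
    apply disc_ne hirr
    have h1 := congrArg (fun z : 𝓞 F => (z : F)) h
    push_cast at h1
    exact h1
  obtain ⟨N, hN0, hN⟩ := exists_N hΔ
  refine ⟨2 * B0 * N, mul_ne_zero (mul_ne_zero two_ne_zero hB0) hN0, ?_⟩
  intro B hBB hBne D δ hD hδ hApp
  have hlN : ∀ l : ℕ, ¬ l ∣ B → ¬ l ∣ N := fun l hlB h => hlB ((h.mul_left _).trans hBB)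
  have hl2 : ∀ l : ℕ, ¬ l ∣ B → l ≠ 2 := by
    rintro l hlB rfl
    exact hlB (Dvd.dvd.trans ⟨B0 * N, by ring⟩ hBB)
  have hlB0 : ∀ l : ℕ, ¬ l ∣ B → ¬ l ∣ B0 := fun l hlB h =>
    hlB (((h.mul_left _).mul_right _).trans hBB)
  constructor
  · intro l hl hlB w hw hDw ι
    have hsq := (hB l hl (hlB0 l hlB)).1
    obtain ⟨x, y, hy, hU, hη⟩ := data hl (hl2 l hlB) hw hsq hApp
    obtain ⟨ι2, ι3, hb, h12, h13, h23, v1, v2, v3, d12, d13, d23, hE⟩ :=
      loc hirr hroot hdeg hN hl hw (hlN l hlB) hU ι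
    have hvD : w.valuation K (algebraMap F K (D : F)) = 1 :=
      Pool.Agent.Q124.ESM.val_one (w := w) (x := iO F K D) hDw
    have hy' : algebraMap F K y ≠ 0 := by
      rw [Ne, map_eq_zero]
      exact hy
    have hpar : Par w (algebraMap F K x - algebraMap F K (D : F) * ι (th : L)) 0 :=
      evnU hvD v1 v2 v3 d12 d13 d23 hy' hE
    obtain ⟨hη0, hηU⟩ := hη ι
    have hη0' : ι (et w th (D : F) x δ ι) ≠ 0 := by
      rw [Ne, map_eq_zero]
      exact hη0
    exact par_neg0 (par_tr hη0' hηU hpar)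
  · intro l hl hlB w hw hDw
    have hsq := (hB l hl (hlB0 l hlB)).1
    obtain ⟨x, y, hy, hU, hη⟩ := data hl (hl2 l hlB) hw hsq hApp
    have hvl := Pool.Agent.Q237.ESM.val_l hl hsq hw
    have hvD : w.valuation K (algebraMap F K (D : F)) = WithZero.exp (-1 : ℤ) := by
      rw [val_bl (algebraMap F K) w hl hw hsq]
      rcases hD.2 l hl hlB _ (abv_bl (algebraMap F K) w hl hw) with h | h
      · exfalso
        rw [← val_bl (algebraMap F K) w hl hw hsq] at h
        have h2 := (Pool.Agent.Q124.ESM.mem_of_val_lt (w := w) (iO F K D)).2 hDw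
        have h3 : w.valuation K (algebraMap F K (D : F)) < 1 := h2
        rw [h] at h3
        exact lt_irrefl _ h3
      · exact h
    have H := fun ι => loc_odd hirr hroot hdeg hN hl hw (hlN l hlB) hy hU hvD ι
    have hη0 : ∀ ι : L →ₐ[F] K, ι (et w th (D : F) x δ ι) ≠ 0 := by
      intro ι
      rw [Ne, map_eq_zero]
      exact (hη ι).1
    have hd0 : ∀ ι : L →ₐ[F] K, algebraMap F K x - algebraMap F K (D : F) * ι (th : L) ≠ 0 := by
      intro ι h0
      have h1 := (hη ι).2.ne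
      rw [h0, mul_zero, zero_div] at h1
      exact h1 rfl
    refine ⟨Ee w th (D : F) x, ?_, fun ι => ⟨fun he => ?_, fun he => ?_⟩, ?_⟩
    · by_cases hne : Nonempty (L →ₐ[F] K)
      · exact (H hne.some).1
      · haveI := not_nonempty_iff.1 hne
        exact Fintype.sum_empty _
    · exact par_neg0 (par_tr (hη0 ι) (hη ι).2 ((H ι).2.1 he))
    · exact par_neg (par_tr (hη0 ι) (hη ι).2 ((H ι).2.2.1 he))
    · intro φ hφ
      have hφ' : Pool.Agent.Q161.ESM.Fb w l (φ.restrictScalars ℚ) := fun x y hxy => hφ x y hxy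
      have hm : ∀ y : K, w.valuation K (φ y) = w.valuation K y := fun y => mvp hl.ne_zero hφ' y
      have hEe : ∀ ι : L →ₐ[F] K, Ee w th (D : F) x (cp φ ι) = Ee w th (D : F) x ι := by
        intro ι
        unfold Ee
        have e : algebraMap F K x - algebraMap F K (D : F) * cp φ ι (th : L) =
            φ (algebraMap F K x - algebraMap F K (D : F) * ι (th : L)) := by
          rw [map_sub, map_mul, φ.commutes, φ.commutes]
          rfl
        rw [e, hm]
      refine ⟨hEe, ?_⟩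
      intro A hA
      let R : (L →ₐ[F] K) → K := fun ι => ι (et w th (D : F) x δ ι) *
        rr w th (D : F) x y (Ee w th (D : F) x) ι /
        (algebraMap F K x - algebraMap F K (D : F) * ι (th : L))
      have hRφ : ∀ ι, φ (R ι) = R (cp φ ι) := by
        intro ι
        show φ (_ * _ / _) = _ * _ / _
        rw [map_div₀, map_mul, rr_eqv φ th (D : F) x y _ hEe ι, et_cp hm, map_sub, map_mul,
          φ.commutes, φ.commutes]
        rfl
      have hUι : ∀ ι ∈ A, U1 (w.valuation K) (ι δ * (if Ee w th (D : F) x ι = 1 then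
          algebraMap F K (D : F) else 1) * uu th (Ee w th (D : F) x) ι / (R ι) ^ 2) := by
        intro ι _
        have h1 := (hη ι).2.mul (H ι).2.2.2
        have hr0 : rr w th (D : F) x y (Ee w th (D : F) x) ι ≠ 0 := by
          intro h0
          have h2 := (H ι).2.2.2.ne
          rw [h0, zero_pow two_ne_zero, div_zero] at h2
          exact h2 rfl
        have e : ι δ * (if Ee w th (D : F) x ι = 1 then algebraMap F K (D : F) else 1) *
            uu th (Ee w th (D : F) x) ι / (R ι) ^ 2 =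
            ι δ * (algebraMap F K x - algebraMap F K (D : F) * ι (th : L)) /
              (ι (et w th (D : F) x δ ι)) ^ 2 *
            ((algebraMap F K x - algebraMap F K (D : F) * ι (th : L)) *
              (if Ee w th (D : F) x ι = 1 then algebraMap F K (D : F) else 1) *
              uu th (Ee w th (D : F) x) ι / (rr w th (D : F) x y (Ee w th (D : F) x) ι) ^ 2) := by
          show _ / (_ * _ / _) ^ 2 = _
          have g1 := hη0 ι
          have g2 := hd0 ι
          field_simp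
        rw [e]
        exact h1
      have h2 := U1.prod hUι
      rw [prod_div_distrib, prod_pow] at h2
      refine Pool.Agent.Q193.ESG.qr_of hl (hl2 l hlB) hvl hφ' (r := ∏ ι ∈ A, R ι) ?_ ?_ h2
      · intro h0
        rw [h0, zero_pow two_ne_zero, div_zero] at h2
        exact h2.ne rfl
      · exact Pool.Agent.Q238.ESN.prod_fixA hA hRφ

end main

end Pool.Agent.H685.ES
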